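import Pool.Agent.Q113.XM.Stm

/-!
# Project XM of helper113: the critical density exists and is unique
-/

set_option autoImplicit false

namespace Pool.Agent.Q119.XM

open Finset Pool.Agent.Q113.XM

theorem exC (k : ℕ) (hk : 2 ≤ k) : ∃ c : ℝ, Crt k c := by
  have hk0 : (0 : ℝ) < k := by exact_mod_cast (by omega : 0 < k)
  obtain ⟨h, hh⟩ : ∃ h : ℝ → ℝ, h = fun x => ((k : ℝ) * x) ^ k + (1 - x) ^ k := ⟨_, rfl⟩
  have hcont : Continuous h := by rw [hh]; fun_prop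
  have h1 : h (1 / (2 * k)) < 1 := by
    rw [hh]
    show ((k : ℝ) * (1 / (2 * k))) ^ k + (1 - 1 / (2 * k)) ^ k < 1
    have e1 : (k : ℝ) * (1 / (2 * k)) = 1 / 2 := by field_simp
    have hk2 : (2 : ℝ) ≤ k := by exact_mod_cast hk
    obtain ⟨x, hx⟩ : ∃ x : ℝ, x = 1 / (2 * k) := ⟨_, rfl⟩
    have hx0 : 0 < x := by rw [hx]; positivity
    have hx1 : x ≤ 1 / 4 := by
      rw [hx, div_le_div_iff₀ (by positivity) (by norm_num)]
      linarith
    have hkx : (k : ℝ) * x = 1 / 2 := by rw [hx]; exact e1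
    rw [e1, ← hx]
    -- Bernoulli
    have hb : 3 / 2 ≤ (1 + x) ^ k := by
      have := one_add_mul_le_pow (a := x) (by linarith) k
      rw [hkx] at this
      linarith
    have hp : (1 - x) ^ k * (1 + x) ^ k ≤ 1 := by
      rw [← mul_pow]
      exact pow_le_one₀ (by nlinarith) (by nlinarith)
    have h0 : 0 ≤ (1 - x) ^ k := pow_nonneg (by linarith) k
    have h2 : (1 - x) ^ k ≤ 2 / 3 := by nlinarith
    have h3 : ((1 : ℝ) / 2) ^ k ≤ 1 / 4 := by
      calc ((1 : ℝ) / 2) ^ k ≤ (1 / 2) ^ 2 := pow_le_pow_of_le_one (by norm_num) (by norm_num) hk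
        _ = 1 / 4 := by norm_num
    linarith
  have h2 : 1 < h (1 / k) := by
    rw [hh]
    show 1 < ((k : ℝ) * (1 / k)) ^ k + (1 - 1 / k) ^ k
    have e1 : (k : ℝ) * (1 / k) = 1 := by field_simp
    have hk2 : (2 : ℝ) ≤ k := by exact_mod_cast hk
    have e2 : (0 : ℝ) < 1 - 1 / k := by
      have : (1 : ℝ) / k ≤ 1 / 2 := by
        rw [div_le_div_iff₀ hk0 (by norm_num)]
        linarith
      linarith
    rw [e1, one_pow]
    have := pow_pos e2 k
    linarith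
  have hle : (1 : ℝ) / (2 * k) ≤ 1 / k := by
    rw [div_le_div_iff₀ (by positivity) hk0]
    nlinarith
  obtain ⟨c, hc, hc1⟩ := intermediate_value_Icc hle hcont.continuousOn ⟨h1.le, h2.le⟩
  have hcne : c ≠ 1 / k := by
    intro h3
    rw [h3] at hc1
    linarith
  have hlt : c < 1 / k := lt_of_le_of_ne hc.2 hcne
  refine ⟨c, ?_, ?_, ?_⟩
  · exact (by positivity : (0 : ℝ) < 1 / (2 * k)).trans_le hc.1
  · rw [lt_div_iff₀ hk0] at hlt
    linarith
  · rw [hh] at hc1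
    exact hc1

theorem ltC (k : ℕ) (hk : 2 ≤ k) (a b : ℝ) (ha : Crt k a) (hb : Crt k b) : ¬ a < b := by
  intro hab
  obtain ⟨ha0, ha1, ha2⟩ := ha
  obtain ⟨hb0, hb1, hb2⟩ := hb
  have hk1 : (1 : ℝ) ≤ k := by exact_mod_cast (by omega : 1 ≤ k)
  have hk0 : (0 : ℝ) < k := by linarith
  obtain ⟨t, ht⟩ : ∃ t : ℝ, t = a / b := ⟨_, rfl⟩
  have ht0 : 0 < t := by rw [ht]; exact div_pos ha0 hb0
  have ht1 : t < 1 := by rw [ht, div_lt_one hb0]; exact hab
  have hta : a = t * b := by rw [ht]; field_simp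
  have hblt : b < 1 := by nlinarith
  have h1 : ((k : ℝ) * a) ^ k < t * ((k : ℝ) * b) ^ k := by
    have e : (k : ℝ) * a = t * (k * b) := by rw [hta]; ring
    rw [e, mul_pow]
    have h2 : t ^ k < t := by
      calc t ^ k ≤ t ^ 2 := pow_le_pow_of_le_one ht0.le ht1.le hk
        _ < t := by nlinarith
    have h3 : 0 < ((k : ℝ) * b) ^ k := pow_pos (mul_pos hk0 hb0) k
    exact mul_lt_mul_of_pos_right h2 h3
  have h2 : (1 - a) ^ k ≤ t * (1 - b) ^ k + (1 - t) * 1 ^ k := by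
    have hcv := (convexOn_pow (𝕜 := ℝ) k).2 (x := 1 - b) (by show (0 : ℝ) ≤ 1 - b; linarith)
      (y := 1) (by show (0 : ℝ) ≤ 1; norm_num) ht0.le (by linarith : (0 : ℝ) ≤ 1 - t) (by ring)
    have e : t * (1 - b) + (1 - t) * (1 : ℝ) = 1 - a := by
      rw [hta]
      ring
    simp only [smul_eq_mul] at hcv
    rw [e] at hcv
    exact hcv
  rw [one_pow] at h2
  have h3 : ((k : ℝ) * a) ^ k + (1 - a) ^ k < t * (((k : ℝ) * b) ^ k + (1 - b) ^ k) + (1 - t) := by
    nlinarith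
  rw [ha2, hb2] at h3
  linarith

theorem t_CRU : S_CRU := by
  intro k hk
  obtain ⟨c, hc⟩ := exC k hk
  refine ⟨c, hc, fun d hd => ?_⟩
  rcases lt_trichotomy d c with h | h | h
  · exact absurd h (ltC k hk d c hd hc)
  · exact h
  · exact absurd h (ltC k hk c d hc hd)

end Pool.Agent.Q119.XM
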